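import Pool.Agent.Helper20.FF.Tr
import Pool.Agent.Helper45.FF.PR.Defs

/-!
# Project FF, PRO, block LOCP: the isomorphisms of the maximal unramified extensions of the twists
-/

set_option autoImplicit false
set_option linter.unusedSectionVars false

namespace Pool.Agent.FFP20

open VC IntermediateField Pool.Agent.SC Pool.Agent.L.TR Pool.Agent.LN.TR
  Pool.Agent.Helper91.Sect
open Pool.Agent.L (L0)
open Pool.Agent.LN (Geo Act GoodCurve)

noncomputable section

/-- `ρ` is an isomorphism of the maximal unramified extensions, over `e` and `K0`, and `ρ y = d r`, `d ^ n = c`. -/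
structure IsoT {k K0 Kc E U : Type} [Field k] [Field K0] [Field Kc] [Algebra k Kc] [Algebra K0 Kc]
    [Field E] [Field U] [Algebra k E] [Algebra E U] [Algebra K0 U]
    (ρ : LT.UU k Kc ≃+* U) (e : kbar k Kc ≃ₐ[k] E) (n : ℕ) (c : k) (y : Kc) (r : U) : Prop where
  const : ∀ z : kbar k Kc, ρ (algebraMap (kbar k Kc) (LT.UU k Kc) z) = algebraMap E U (e z)
  base : ∀ x : K0, ρ (LT.toU (k := k) (K := Kc) (algebraMap K0 Kc x)) = algebraMap K0 U x
  root : ∃ d : E, d ^ n = algebraMap k E c ∧ d ≠ 0 ∧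
    algebraMap E U d * r = ρ (LT.toU (k := k) (K := Kc) y)

section transfer

variable {k K0 K1 : Type} [Field k] [CharZero k] [Field K0] [Field K1] [Algebra k K0]
  [Algebra k K1] [Algebra K0 K1] [IsScalarTower k K0 K1]
  {Kc : Type} [Field Kc] [Algebra k Kc] [Algebra K0 Kc] [IsScalarTower k K0 Kc]

/-- the isomorphism of the maximal unramified extensions of the twists -/
theorem exists_isoT {n : ℕ} (hn : 0 < n) {h : K0} (hh : h ≠ 0) {r : K1}
    (hr : r ^ n = algebraMap K0 K1 h)
    (hK1 : IntermediateField.adjoin K0 {r} = ⊤) [FiniteDimensional K0 K1]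
    [FiniteDimensional K0 Kc] {c : k} (hc : c ≠ 0) {y : Kc}
    (hy : y ^ n = algebraMap k Kc c * algebraMap K0 Kc h)
    (hKc : IntermediateField.adjoin K0 {y} = ⊤) :
    letI : Algebra K0 (UU k K1) := (jU k K0 K1).toAlgebra
    ∃ (ρ : LT.UU k Kc ≃+* UU k K1) (e : kbar k Kc ≃ₐ[k] kbar k K1),
      IsoT (K0 := K0) ρ e n c y (rU k r) := by
  letI i0 : Algebra K0 (UU k K1) := (jU k K0 K1).toAlgebra
  have halg0 : Algebra.IsAlgebraic K0 (AlgebraicClosure K1) :=
    Algebra.IsAlgebraic.trans K0 K1 (AlgebraicClosure K1)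
  have hac0 : IsAlgClosure K0 (AlgebraicClosure K1) := ⟨inferInstance, halg0⟩
  have halgc : Algebra.IsAlgebraic K0 (AlgebraicClosure Kc) :=
    Algebra.IsAlgebraic.trans K0 Kc (AlgebraicClosure Kc)
  have hacc : IsAlgClosure K0 (AlgebraicClosure Kc) := ⟨inferInstance, halgc⟩
  let ψ : AlgebraicClosure Kc ≃ₐ[K0] AlgebraicClosure K1 :=
    IsAlgClosure.equiv K0 (AlgebraicClosure Kc) (AlgebraicClosure K1)
  have hψ : ∀ x : K0, ψ (algebraMap Kc (AlgebraicClosure Kc) (algebraMap K0 Kc x)) =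
      algebraMap K1 (AlgebraicClosure K1) (algebraMap K0 K1 x) := by
    intro x
    rw [← IsScalarTower.algebraMap_apply K0 Kc (AlgebraicClosure Kc),
      ← IsScalarTower.algebraMap_apply K0 K1 (AlgebraicClosure K1)]
    exact ψ.commutes x
  have hψ' : ∀ x : K0, ψ.symm (algebraMap K1 (AlgebraicClosure K1) (algebraMap K0 K1 x)) =
      algebraMap Kc (AlgebraicClosure Kc) (algebraMap K0 Kc x) := by
    intro x
    rw [← hψ, AlgEquiv.symm_apply_apply]
  have hk : ∀ c : k, ψ (algebraMap k (AlgebraicClosure Kc) c) =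
      algebraMap k (AlgebraicClosure K1) c := by
    intro c
    rw [IsScalarTower.algebraMap_apply k Kc (AlgebraicClosure Kc),
      IsScalarTower.algebraMap_apply k K0 Kc, hψ, ← IsScalarTower.algebraMap_apply k K0 K1,
      ← IsScalarTower.algebraMap_apply]
  have hk' : ∀ c : k, ψ.symm (algebraMap k (AlgebraicClosure K1) c) =
      algebraMap k (AlgebraicClosure Kc) c := by
    intro c
    rw [← hk, AlgEquiv.symm_apply_apply]
  let ψk : AlgebraicClosure Kc ≃ₐ[k] AlgebraicClosure K1 :=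
    AlgEquiv.ofRingEquiv (f := (ψ : AlgebraicClosure Kc ≃+* AlgebraicClosure K1)) hk
  have hbar : ∀ z : AlgebraicClosure Kc, z ∈ kbar k Kc → ψ z ∈ kbar k K1 := by
    intro z hz
    rw [mem_algebraicClosure_iff] at hz ⊢
    exact hz.algHom (ψk : AlgebraicClosure Kc →ₐ[k] AlgebraicClosure K1)
  have hbar' : ∀ z : AlgebraicClosure K1, z ∈ kbar k K1 → ψ.symm z ∈ kbar k Kc := by
    intro z hz
    rw [mem_algebraicClosure_iff] at hz ⊢
    exact hz.algHom (ψk.symm : AlgebraicClosure K1 →ₐ[k] AlgebraicClosure Kc)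
  -- the root of `c`
  have hr0 : algebraMap K1 (AlgebraicClosure K1) r ≠ 0 := by
    intro h0
    have h1 : r = 0 := (map_eq_zero (algebraMap K1 (AlgebraicClosure K1))).1 h0
    rw [h1, zero_pow hn.ne'] at hr
    exact hh ((map_eq_zero (algebraMap K0 K1)).1 hr.symm)
  have hpow : (ψ (algebraMap Kc (AlgebraicClosure Kc) y)) ^ n =
      algebraMap k (AlgebraicClosure K1) c * (algebraMap K1 (AlgebraicClosure K1) r) ^ n := by
    rw [← map_pow, ← map_pow, hy, map_mul, map_mul, hψ,
      ← IsScalarTower.algebraMap_apply k Kc (AlgebraicClosure Kc), hk, ← map_pow, hr]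
  obtain ⟨d, hd⟩ : ∃ d : AlgebraicClosure K1,
      d * algebraMap K1 (AlgebraicClosure K1) r = ψ (algebraMap Kc (AlgebraicClosure Kc) y) :=
    ⟨_, div_mul_cancel₀ _ hr0⟩
  have hdn : d ^ n = algebraMap k (AlgebraicClosure K1) c := by
    rw [← hd, mul_pow] at hpow
    exact mul_right_cancel₀ (pow_ne_zero _ hr0) hpow
  have hd0 : d ≠ 0 := by
    intro h0
    rw [h0, zero_pow hn.ne'] at hdn
    exact hc ((map_eq_zero (algebraMap k (AlgebraicClosure K1))).1 hdn.symm)
  have hdk : d ∈ kbar k K1 := by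
    rw [mem_algebraicClosure_iff]
    refine IsAlgebraic.of_pow hn ?_
    rw [hdn]
    exact isAlgebraic_algebraMap c
  have hdM : d ∈ KK k K1 := (KK k K1).algebraMap_mem (⟨d, hdk⟩ : kbar k K1)
  have hrM : algebraMap K1 (AlgebraicClosure K1) r ∈ KK k K1 := algebraMap_mem_KK _
  have hψy : ψ (algebraMap Kc (AlgebraicClosure Kc) y) ∈ KK k K1 := by
    rw [← hd]
    exact mul_mem hdM hrM
  have hψr : ψ.symm (algebraMap K1 (AlgebraicClosure K1) r) ∈ KK k Kc := by
    have h2 : ψ.symm d ∈ KK k Kc :=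
      (KK k Kc).algebraMap_mem (⟨ψ.symm d, hbar' d hdk⟩ : kbar k Kc)
    have h3 : algebraMap Kc (AlgebraicClosure Kc) y ∈ KK k Kc := algebraMap_mem_KK _
    have h4 : ψ.symm (algebraMap K1 (AlgebraicClosure K1) r) =
        (ψ.symm d)⁻¹ * (ψ.symm (d * algebraMap K1 (AlgebraicClosure K1) r)) := by
      rw [map_mul, ← mul_assoc, inv_mul_cancel₀ ((map_ne_zero_iff ψ.symm ψ.symm.injective).2 hd0),
        one_mul]
    rw [h4, hd, AlgEquiv.symm_apply_apply]
    exact mul_mem (inv_mem h2) h3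
  have hKc' : ∀ x : Kc, ψ (algebraMap Kc (AlgebraicClosure Kc) x) ∈ KK k K1 :=
    map_mem_KK hKc (ψ : AlgebraicClosure Kc →+* AlgebraicClosure K1) hψ hψy
  have hK1' : ∀ x : K1, ψ.symm (algebraMap K1 (AlgebraicClosure K1) x) ∈ KK k Kc :=
    map_mem_KK hK1 (ψ.symm : AlgebraicClosure K1 →+* AlgebraicClosure Kc) hψ' hψr
  have hur : ∀ z : AlgebraicClosure Kc, z ∈ Kur k Kc → ψ z ∈ Kur k K1 := fun z hz =>
    kur_of_iso (ψ.symm : AlgebraicClosure K1 ≃+* AlgebraicClosure Kc) hk' hKc' hz
  have hur' : ∀ z : AlgebraicClosure K1, z ∈ Kur k K1 → ψ.symm z ∈ Kur k Kc := fun z hz =>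
    kur_of_iso (ψ : AlgebraicClosure Kc ≃+* AlgebraicClosure K1) hk hK1' hz
  let ρ' : LT.UU k Kc ≃+* UU k K1 :=
    { toFun := fun z => ⟨ψ z, mem_UU.2 (hur z (LT.UU_le _ z.2))⟩
      invFun := fun z => ⟨ψ.symm z, (LT.mem_UU k Kc).2 (hur' z (mem_UU.1 z.2))⟩
      left_inv := fun z => Subtype.ext (ψ.symm_apply_apply z)
      right_inv := fun z => Subtype.ext (ψ.apply_symm_apply z)
      map_mul' := fun a b => Subtype.ext (map_mul ψ (a : AlgebraicClosure Kc) b)
      map_add' := fun a b => Subtype.ext (map_add ψ (a : AlgebraicClosure Kc) b) }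
  let e : kbar k Kc ≃ₐ[k] kbar k K1 :=
    { toFun := fun z => ⟨ψ z, hbar z z.2⟩
      invFun := fun z => ⟨ψ.symm z, hbar' z z.2⟩
      left_inv := fun z => Subtype.ext (ψ.symm_apply_apply z)
      right_inv := fun z => Subtype.ext (ψ.apply_symm_apply z)
      map_mul' := fun a b => Subtype.ext (map_mul ψ (a : AlgebraicClosure Kc) b)
      map_add' := fun a b => Subtype.ext (map_add ψ (a : AlgebraicClosure Kc) b)
      commutes' := fun c => Subtype.ext (hk c) }
  refine ⟨ρ', e, fun z => rfl, fun x => Subtype.ext (hψ x), ⟨⟨d, hdk⟩, Subtype.ext hdn, ?_,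
    Subtype.ext hd⟩⟩
  intro h0
  exact hd0 (congrArg Subtype.val h0)

end transfer

/-- The fixed situation `U`, and the isomorphisms for all twists. -/
theorem trI (k K0 : Type) [Field k] [CharZero k] [Field K0] [Algebra k K0] (n : ℕ) (h : K0)
    (hn : 2 ≤ n) (hg : GoodCurve k n h) :
    ∃ (E U : Type) (_ : Field E) (_ : Field U) (_ : Algebra k E) (_ : Algebra E U)
      (_ : Algebra K0 U) (_ : Algebra k U) (_ : IsScalarTower k E U) (_ : IsScalarTower k K0 U)
      (r : U), IsAlgClosure k E ∧ Geo k K0 E U n h r ∧ ∀ c : k, c ≠ 0 → ∀ (K : Type) [Field K]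
        [Algebra k K] [Algebra K0 K] [IsScalarTower k K0 K] (y : K),
        y ^ n = algebraMap k K c * algebraMap K0 K h → IntermediateField.adjoin K0 {y} = ⊤ →
        ∃ (ρ : LT.UU k K ≃+* U) (e : kbar k K ≃ₐ[k] E), IsoT (K0 := K0) ρ e n c y r := by
  have hn0 : 0 < n := by omega
  obtain ⟨r₀, hr₀⟩ := IsAlgClosed.exists_pow_nat_eq (algebraMap K0 (AlgebraicClosure K0) h) hn0
  have hh : h ≠ 0 := by
    intro h0
    refine hg.irr r₀ hr₀ 1 (by omega) (by omega) ?_
    rw [h0, map_zero] at hr₀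
    rw [pow_eq_zero_iff hn0.ne' |>.1 hr₀, pow_one]
    exact zero_mem _
  let K1 : IntermediateField K0 (AlgebraicClosure K0) := IntermediateField.adjoin K0 {r₀}
  have hfd : FiniteDimensional K0 K1 := by
    refine IntermediateField.adjoin.finiteDimensional ?_
    exact (Algebra.IsAlgebraic.isAlgebraic r₀).isIntegral
  let r : K1 := ⟨r₀, IntermediateField.mem_adjoin_simple_self K0 r₀⟩
  have hr : r ^ n = algebraMap K0 K1 h := Subtype.ext hr₀
  have hK1 : IntermediateField.adjoin K0 {r} = ⊤ := by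
    apply IntermediateField.map_injective K1.val
    rw [IntermediateField.adjoin_map, Set.image_singleton, ← AlgHom.fieldRange_eq_map,
      IntermediateField.fieldRange_val]
    rfl
  letI i0 : Algebra K0 (UU k K1) := (jU k K0 K1).toAlgebra
  refine ⟨kbar k K1, UU k K1, inferInstance, inferInstance, inferInstance, inferInstance, i0,
    inferInstance, inferInstance, ?_, rU k r, inferInstance, LN.TR.geo hn0 h r hg hr hK1, ?_⟩
  · refine IsScalarTower.of_algebraMap_eq fun x => ?_
    apply Subtype.ext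
    change algebraMap k (AlgebraicClosure K1) x =
      algebraMap K1 (AlgebraicClosure K1) (algebraMap K0 K1 (algebraMap k K0 x))
    rw [← IsScalarTower.algebraMap_apply k K0 K1,
      ← IsScalarTower.algebraMap_apply k K1 (AlgebraicClosure K1)]
  · intro c hc K _ _ _ _ y hy hKc
    have hfc : FiniteDimensional K0 K := by
      have h1 : FiniteDimensional K0 (IntermediateField.adjoin K0 {y}) := by
        refine IntermediateField.adjoin.finiteDimensional ?_
        refine IsIntegral.of_pow hn0 ?_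
        rw [hy, IsScalarTower.algebraMap_apply k K0 K, ← map_mul]
        exact isIntegral_algebraMap
      rw [hKc] at h1
      exact Module.Finite.equiv IntermediateField.topEquiv.toLinearEquiv
    exact exists_isoT hn0 hh hr hK1 hc hy hKc

end

end Pool.Agent.FFP20
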