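import Pool.Agent.Helper45.FF.PR.Defs

/-!
# Project FF, PRO, block LOCP: the maximal geometrically pro-`ℓ` extension and the action of a section
-/

set_option autoImplicit false
set_option linter.unusedSectionVars false

namespace Pool.Agent.FFP20

open VC IntermediateField Pool.Agent.SC Pool.Agent.Helper91.Sect Pool.Agent
open Pool.Agent.LT (UU toU MM mem_UU KK_le_UU toU_mem)
open Pool.Agent.GCL (KurL IsGeom ProSection PLf ActK toL)

noncomputable section

theorem pow_conj20 {F G A B : Type*} [Field F] [Field G] [Field A] [Field B] [Algebra F A]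
    [Algebra G B] (ρ : A ≃+* B) (σ : A ≃ₐ[F] A) (τ : B ≃ₐ[G] B) (h : ∀ a, τ (ρ a) = ρ (σ a))
    (n : ℕ) (a : A) : (τ ^ n) (ρ a) = ρ ((σ ^ n) a) := by
  induction n with
  | zero => rw [pow_zero, pow_zero, AlgEquiv.one_apply, AlgEquiv.one_apply]
  | succ n ih => rw [pow_succ', pow_succ', AlgEquiv.mul_apply, AlgEquiv.mul_apply, ih, h]

section kurl

variable (k K : Type) [Field k] [Field K] [Algebra k K]

/-- the identity -/
def kapU : Kur k K ≃+* UU k K where
  toFun z := ⟨z, (mem_UU k K).2 z.2⟩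
  invFun z := ⟨z, (mem_UU k K).1 z.2⟩
  left_inv _ := rfl
  right_inv _ := rfl
  map_mul' _ _ := rfl
  map_add' _ _ := rfl

variable {k K}

theorem coe_kapU (z : Kur k K) : ((kapU k K z : UU k K) : AlgebraicClosure K) = z := rfl

theorem coe_kapU_symm (z : UU k K) : (((kapU k K).symm z : Kur k K) : AlgebraicClosure K) = z := rfl

/-- geometric automorphisms fix the elements of `MM` -/
theorem geom_fix {σ : Pi1 k K} (hσ : IsGeom σ) {m : UU k K} (hm : m ∈ MM k K) :
    kapU k K (σ ((kapU k K).symm m)) = m := by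
  let T : IntermediateField (kbar k K) (UU k K) :=
    { carrier := {z | kapU k K (σ ((kapU k K).symm z)) = z}
      mul_mem' := fun {a b} ha hb => by
        change kapU k K (σ ((kapU k K).symm (a * b))) = a * b
        rw [map_mul, map_mul, map_mul, show kapU k K (σ ((kapU k K).symm a)) = a from ha,
          show kapU k K (σ ((kapU k K).symm b)) = b from hb]
      add_mem' := fun {a b} ha hb => by
        change kapU k K (σ ((kapU k K).symm (a + b))) = a + b
        rw [map_add, map_add, map_add, show kapU k K (σ ((kapU k K).symm a)) = a from ha,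
          show kapU k K (σ ((kapU k K).symm b)) = b from hb]
      algebraMap_mem' := fun c => by
        change kapU k K (σ ((kapU k K).symm (algebraMap (kbar k K) (UU k K) c))) = _
        rw [hσ _ (show ((((kapU k K).symm (algebraMap (kbar k K) (UU k K) c)) : Kur k K) :
          AlgebraicClosure K) ∈ kbar k K from c.2), RingEquiv.apply_symm_apply]
      inv_mem' := fun a ha => by
        change kapU k K (σ ((kapU k K).symm a⁻¹)) = a⁻¹
        rw [map_inv₀, map_inv₀, map_inv₀, show kapU k K (σ ((kapU k K).symm a)) = a from ha] }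
  have h1 : KK k K ≤ T.map (UU k K).val := by
    refine IntermediateField.adjoin_le_iff.2 ?_
    rintro _ ⟨c, rfl⟩
    refine ⟨toU (k := k) (K := K) c, ?_, rfl⟩
    change kapU k K (σ ((kapU k K).symm (toU (k := k) (K := K) c))) = _
    have h2 : (kapU k K).symm (toU (k := k) (K := K) c) = algebraMap K (Kur k K) c := rfl
    rw [h2, AlgEquiv.commutes]
    rfl
  have h2 : (m : AlgebraicClosure K) ∈ KK k K :=
    (IntermediateField.mem_restrict (KK_le_UU k K) _).1 hm
  obtain ⟨w, hw, hwm⟩ := h1 h2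
  have h3 : w = m := Subtype.ext hwm
  rw [← h3]
  exact hw

theorem KurL_le {ℓ : ℕ} {z : AlgebraicClosure K} (hz : z ∈ KurL ℓ k K) : z ∈ Kur k K := by
  obtain ⟨h, -⟩ := hz
  exact h

/-- `KurL` is the maximal pro-`ℓ` subextension of `UU / MM`. -/
theorem mem_KurL_iff {ℓ : ℕ} {z : Kur k K} :
    (z : AlgebraicClosure K) ∈ KurL ℓ k K ↔ kapU k K z ∈ PLf ℓ (MM k K) := by
  constructor
  · rintro ⟨hz, h⟩ τ
    let σ : Pi1 k K := AlgEquiv.ofRingEquiv
      (f := ((kapU k K).trans (τ : UU k K ≃+* UU k K)).trans (kapU k K).symm) (by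
      intro c
      change (kapU k K).symm (τ (kapU k K (algebraMap K (Kur k K) c))) = _
      have h2 : kapU k K (algebraMap K (Kur k K) c) = toU (k := k) (K := K) c := rfl
      rw [h2, show τ (toU (k := k) (K := K) c) = toU (k := k) (K := K) c from
        τ.commutes ⟨toU (k := k) (K := K) c, toU_mem c⟩]
      rfl)
    have hσ : ∀ w, τ (kapU k K w) = kapU k K (σ w) := fun w =>
      ((kapU k K).apply_symm_apply _).symm
    have hg : IsGeom σ := by
      intro c hc
      apply (kapU k K).injective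
      rw [← hσ]
      exact τ.commutes (algebraMap (kbar k K) (MM k K) ⟨c, hc⟩)
    obtain ⟨j, hj⟩ := h σ hg
    refine ⟨j, ?_⟩
    rw [pow_conj20 (kapU k K) σ τ hσ]
    exact congrArg (kapU k K) hj
  · intro h
    refine ⟨z.2, fun σ hσ => ?_⟩
    let τ : UU k K ≃ₐ[MM k K] UU k K := AlgEquiv.ofRingEquiv
      (f := ((kapU k K).symm.trans (σ : Kur k K ≃+* Kur k K)).trans (kapU k K))
      (fun m => geom_fix hσ m.2)
    have hτ : ∀ w, τ (kapU k K w) = kapU k K (σ w) := fun w => by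
      change kapU k K (σ ((kapU k K).symm (kapU k K w))) = _
      rw [RingEquiv.symm_apply_apply]
    obtain ⟨j, hj⟩ := h τ
    refine ⟨j, ?_⟩
    rw [pow_conj20 (kapU k K) σ τ hτ] at hj
    exact (kapU k K).injective hj

variable (k K) (ℓ : ℕ) in
/-- the identity -/
def eL : KurL ℓ k K ≃+* PLf ℓ (MM k K) where
  toFun z := ⟨⟨z, (mem_UU k K).2 (KurL_le z.2)⟩,
    (mem_KurL_iff (z := (⟨z, KurL_le z.2⟩ : Kur k K))).1 z.2⟩
  invFun z := ⟨((z : UU k K) : AlgebraicClosure K),
    (mem_KurL_iff (z := (⟨((z : UU k K) : AlgebraicClosure K),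
      (mem_UU k K).1 (z : UU k K).2⟩ : Kur k K))).2 z.2⟩
  left_inv _ := rfl
  right_inv _ := rfl
  map_mul' _ _ := rfl
  map_add' _ _ := rfl

/-- the action of a section on `PLf` -/
def aPro {ℓ : ℕ} (s : ProSection ℓ k K) : Gk k K →* (PLf ℓ (MM k K) ≃+* PLf ℓ (MM k K)) where
  toFun γ := ((eL k K ℓ).symm.trans (s.toHom γ : KurL ℓ k K ≃+* KurL ℓ k K)).trans (eL k K ℓ)
  map_one' := by
    ext z : 1
    change eL k K ℓ (s.toHom 1 ((eL k K ℓ).symm z)) = z
    rw [map_one]
    exact (eL k K ℓ).apply_symm_apply z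
  map_mul' a b := by
    ext z : 1
    change eL k K ℓ (s.toHom (a * b) ((eL k K ℓ).symm z)) =
      eL k K ℓ (s.toHom a ((eL k K ℓ).symm (eL k K ℓ (s.toHom b ((eL k K ℓ).symm z)))))
    rw [map_mul, (eL k K ℓ).symm_apply_apply]
    rfl

theorem aPro_apply {ℓ : ℕ} (s : ProSection ℓ k K) (γ : Gk k K) (z : KurL ℓ k K) :
    aPro s γ (eL k K ℓ z) = eL k K ℓ (s.toHom γ z) := by
  change eL k K ℓ (s.toHom γ ((eL k K ℓ).symm (eL k K ℓ z))) = _
  rw [(eL k K ℓ).symm_apply_apply]

/-- The action through `s` on a fixed element factors through a finite extension. -/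
theorem exists_finite_levelP {ℓ : ℕ} (s : ProSection ℓ k K) (w : KurL ℓ k K) :
    ∃ L : IntermediateField k (kbar k K), FiniteDimensional k L ∧
      ∀ σ ∈ L.fixingSubgroup, s.toHom σ w = w := by
  have h1 : (MulAction.stabilizer (KurL ℓ k K ≃ₐ[K] KurL ℓ k K) w :
      Set (KurL ℓ k K ≃ₐ[K] KurL ℓ k K)) ∈ nhds (1 : KurL ℓ k K ≃ₐ[K] KurL ℓ k K) := by
    have := stabilizer_isOpen_of_isIntegral (K := K) (L := KurL ℓ k K) w
    exact this.mem_nhds (one_mem _)
  have h2 : s.toHom ⁻¹' (MulAction.stabilizer (KurL ℓ k K ≃ₐ[K] KurL ℓ k K) w :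
      Set (KurL ℓ k K ≃ₐ[K] KurL ℓ k K)) ∈ nhds (1 : Gk k K) := by
    apply s.continuous_toHom.continuousAt
    rw [map_one]
    exact h1
  rw [krullTopology_mem_nhds_one_iff] at h2
  obtain ⟨L, hL, hsub⟩ := h2
  exact ⟨L, hL, fun σ hσ => hsub hσ⟩

theorem actK_aPro {ℓ : ℕ} (s : ProSection ℓ k K) : ActK ℓ (aPro s) where
  const γ c := by
    have hc : (c : AlgebraicClosure K) ∈ KurL ℓ k K :=
      (mem_KurL_iff (z := (⟨c, kbar_mem_Kur c⟩ : Kur k K))).2
        ((PLf ℓ (MM k K)).algebraMap_mem c)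
    have h1 := aPro_apply s γ ⟨c, hc⟩
    have h2 := s.isSection γ c ⟨c, hc⟩ rfl
    have h3 : eL k K ℓ ⟨c, hc⟩ = algebraMap (kbar k K) (PLf ℓ (MM k K)) c := rfl
    rw [h3] at h1
    rw [h1]
    exact Subtype.ext (Subtype.ext h2)
  base γ c := by
    have h1 := aPro_apply s γ (algebraMap K (KurL ℓ k K) c)
    rw [AlgEquiv.commutes] at h1
    exact h1
  fin z := by
    obtain ⟨w, rfl⟩ := (eL k K ℓ).surjective z
    obtain ⟨L, hL, h1⟩ := exists_finite_levelP s w
    refine ⟨L, hL, fun σ hσ => ?_⟩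
    rw [aPro_apply, h1 σ hσ]

end kurl

section iso

variable {K₁ U₁ K₂ U₂ : Type} [Field K₁] [Field U₁] [Algebra K₁ U₁] [Field K₂] [Field U₂]
  [Algebra K₂ U₂] {M₁ : IntermediateField K₁ U₁} {M₂ : IntermediateField K₂ U₂}

/-- isomorphisms preserve the maximal pro-`ℓ` subextension -/
theorem PLf_iso {ℓ : ℕ} (ρ : U₁ ≃+* U₂) (h1 : ∀ m ∈ M₁, ρ m ∈ M₂) {z : U₁}
    (hz : z ∈ PLf ℓ M₁) : ρ z ∈ PLf ℓ M₂ := by
  intro σ
  let τ : U₁ ≃ₐ[M₁] U₁ := AlgEquiv.ofRingEquiv
    (f := (ρ.trans (σ : U₂ ≃+* U₂)).trans ρ.symm) (by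
    intro m
    change ρ.symm (σ (ρ m)) = m
    rw [show σ (ρ m) = ρ m from σ.commutes ⟨ρ m, h1 m m.2⟩, RingEquiv.symm_apply_apply])
  obtain ⟨j, hj⟩ := hz τ
  refine ⟨j, ?_⟩
  rw [pow_conj20 ρ τ σ (fun w => (ρ.apply_symm_apply _).symm), hj]

end iso

end

end Pool.Agent.FFP20
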