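import Pool.Agent.Helper20.FF.PR.LocP
import Pool.Agent.Helper37.TWU.F
import Pool.Agent.Helper13.GC.C4

/-!
# Project FF, PRO, block LOCP
-/

set_option autoImplicit false
set_option linter.unusedSectionVars false

namespace Pool.Agent.FFP20

open VC IntermediateField Polynomial Pool.Agent.SC Pool.Agent.Helper91.Sect Pool.Agent
open Pool.Agent.L (L0)
open Pool.Agent.LN (Geo Act GoodCurve)
open Pool.Agent.LT (UU toU mem_UU GoodRed goodElts goodRed_of_goodElts)
open Pool.Agent.GC (LL CycE Coord)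
open Pool.Agent.M (Moves OverPl inL0)
open Pool.Agent.ML (BPl)
open Pool.Agent.FFS (OverU LocA HypC GoodW IsProU AgrP StmtLP StmtLOCP)
open Pool.Agent.FFL20
open Pool.Agent.GCL (KurL ProSection PLf ActK toL Br3)

noncomputable section

/-- The local properties. -/
theorem locP20 (hLP : StmtLP) {F k K0 K E U' : Type} [Field F] [CharZero F] [Field k] [CharZero k]
    [DecidableEq k] [Algebra F k] [Field K0] [Algebra k K0] [Field K]
    [Algebra k K] [Algebra K0 K] [IsScalarTower k K0 K]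
    [Field E] [Algebra k E] [Field U'] [Algebra E U'] [Algebra K0 U']
    {e : kbar k K ≃ₐ[k] E} {y : K} {ℓ : ℕ}
    {ρ : PLf ℓ (LT.MM k K) ≃+* U'} {r' : U'} {c : k}
    {a : Gk k K →* (PLf ℓ (LT.MM k K) ≃+* PLf ℓ (LT.MM k K))} (ha : ActK ℓ a)
    (hF : ∃ S : Finset F, Subfield.closure (S : Set F) = ⊤) {t : k}
    (hfin : FiniteDimensional (IntermediateField.adjoin F {t}) k) (hℓ : ℓ.Prime)
    {h x z₀ : K0} {f : k[X]} {S : Finset k} {c' : k}
    (T : IsoP (K0 := K0) ℓ ρ e c' y r') (hS : CycE ℓ c h x z₀ f S y)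
    (hff : IsFunctionField E (L0 E K0 (U := U'))) (hr : r' ^ ℓ = algebraMap K0 U' h)
    (halg : Algebra.IsAlgebraic (L0 E K0 (U := U')) U')
    (hbr : Br3 ℓ K0 k y)
    {S' : Set k} (hS' : ∀ a ∈ goodElts f 1 ∪ S, a ∈ S') {B : Set E} {W₀ : ValuationSubring E}
    (H : HypC F S' B ℓ c W₀) : LocA F K0 ℓ h S' c W₀ (PhiP a ρ e) := by
  have hE0 : CharZero E := charZero_of_injective_algebraMap (algebraMap k E).injective
  let iFK : Algebra F K := ((algebraMap k K).comp (algebraMap F k)).toAlgebra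
  have sFK : IsScalarTower F k K := IsScalarTower.of_algebraMap_eq fun _ => rfl
  have hmem : ∀ (W : ValuationSubring E) (a : k), algebraMap k E a ∈ W →
      algebraMap k (kbar k K) a ∈ W.comap (e : kbar k K →+* E) := by
    intro W a ha
    change e (algebraMap k (kbar k K) a) ∈ W
    rw [e.commutes]
    exact ha
  have hnon : ∀ (W : ValuationSubring E) (a : k),
      algebraMap k (kbar k K) a ∈ (W.comap (e : kbar k K →+* E)).nonunits ↔
        algebraMap k E a ∈ W.nonunits := by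
    intro W a
    rw [comap_nonunits20]
    change e (algebraMap k (kbar k K) a) ∈ W.nonunits ↔ _
    rw [e.commutes]
  have hk₁ : ∀ W : ValuationSubring E, GoodW F S' W → ∀ a : F,
      algebraMap F (kbar k K) a ∈ W.comap (e : kbar k K →+* E) := by
    intro W hW a
    rw [IsScalarTower.algebraMap_apply F k (kbar k K)]
    exact hmem W _ (hW.const a)
  have hred : ∀ W : ValuationSubring E, GoodW F S' W →
      GoodRed (W.comap (e : kbar k K →+* E)) f := by
    intro W hW
    refine (goodRed_of_goodElts (c := 1) (by have := hS.deg; omega) hS.sep one_ne_zero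
      (fun a ha => ?_)).1
    exact hmem W a (hW.mem a (hS' a (Finset.mem_union_left _ ha)))
  have hSW : ∀ W : ValuationSubring E, GoodW F S' W → ∀ a ∈ S,
      algebraMap k (kbar k K) a ∈ W.comap (e : kbar k K →+* E) := fun W hW a ha =>
    hmem W a (hW.mem a (hS' a (Finset.mem_union_right _ ha)))
  have hsurj : Function.Surjective (e : kbar k K →+* E) := e.surjective
  have hh0 : (inL0 h : L0 E K0 (U := U')) ≠ 0 := by
    intro h0
    have h1 : algebraMap K0 U' h = 0 := congrArg Subtype.val h0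
    exact hS.g_ne ((map_eq_zero _).1 h1)
  have hr0 : r' ≠ 0 := by
    rintro rfl
    rw [zero_pow hℓ.ne_zero] at hr
    exact hS.g_ne ((map_eq_zero _).1 hr.symm)
  refine ⟨?_, ?_⟩
  · have hdisc : ∀ z : k, z ≠ 0 → ∃ i : ℤ,
        (W₀.comap (e : kbar k K →+* E)).valuation (algebraMap k (kbar k K) z) =
          (W₀.comap (e : kbar k K →+* E)).valuation (algebraMap k (kbar k K) c) ^ i := by
      intro z hz
      obtain ⟨i, hi⟩ := H.gen z hz
      refine ⟨i, ?_⟩
      have hz' : algebraMap k (kbar k K) z ≠ 0 := (_root_.map_ne_zero _).2 hz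
      have hc' : algebraMap k (kbar k K) c ≠ 0 := (_root_.map_ne_zero _).2 H.c0
      rw [← map_zpow₀, comap_eq_iff20 _ _ hz' (zpow_ne_zero _ hc'), map_zpow₀, map_zpow₀]
      change W₀.valuation (e (algebraMap k (kbar k K) z)) =
        W₀.valuation (e (algebraMap k (kbar k K) c)) ^ i
      rw [e.commutes, e.commutes]
      exact hi
    obtain ⟨P, hPK, hP1, hPD, hPv⟩ := (hLP F k K0 K ℓ c h x z₀ f S y hℓ hS a ha hF t hfin
      (W₀.comap (e : kbar k K →+* E)) (comap_ne_top20 hsurj H.good.ne) (hk₁ W₀ H.good)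
      (hred W₀ H.good) (hSW W₀ H.good)).1 hbr c 1 1 ((hnon W₀ c).2 H.zero) H.c0
      hdisc (by rw [pow_one, mul_one]) (fun hd => hℓ.one_lt.ne' (Nat.dvd_one.1 hd))
      (by rw [map_one]; exact one_mem _)
      (by
        rw [map_one, ValuationSubring.mem_nonunits_iff, map_one]
        exact lt_irrefl _)
    let P' : ValuationSubring U' := P.comap (ρ.symm : U' →+* PLf ℓ (LT.MM k K))
    have hP'E : ∀ a : E, algebraMap E U' a ∈ P' := by
      intro a
      change ρ.symm (algebraMap E U' a) ∈ P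
      rw [T.const']
      exact hPK _
    have hP'1 : P' ≠ ⊤ := comap_ne_top20 ρ.symm.surjective hP1
    let b : Place E (L0 E K0 (U := U')) :=
      ⟨P'.comap (algebraMap (L0 E K0 (U := U')) U'), fun a => hP'E a, fun htop => hP'1
        (eq_top_of_forall_mem (M := L0 E K0 (U := U')) (fun m => by
          have h1 : m ∈ P'.comap (algebraMap (L0 E K0 (U := U')) U') := by
            rw [htop]
            trivial
          exact h1))⟩
    have hbP : OverU b P' := fun z => Iff.rfl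
    refine ⟨b, P', bplP20 hℓ.ne_zero hS.g_ne hff hr hbP (fun u hu heq => ?_), hbP, fun γ hγ z => ?_⟩
    · have hu0 : u ≠ 0 := by
        rintro rfl
        rw [map_zero, Valuation.zero_iff] at heq
        exact hr0 heq
      rw [comap_eq_iff20 _ _ hr0 hu0] at heq
      obtain ⟨d, hd0, hd⟩ := T.root'
      have h1 : P.valuation (algebraMap (kbar k K) (PLf ℓ (LT.MM k K)) d) = 1 :=
        val_one_of_mem (hPK d) (by rw [← map_inv₀]; exact hPK _) ((_root_.map_ne_zero _).2 hd0)
      have h2 : P.valuation (ρ.symm r') = P.valuation (ρ.symm u) := heq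
      rw [hd, map_mul, h1, one_mul] at h2
      exact hPv (ρ.symm u) (T.mem_LL hu) h2
    · obtain ⟨z₁, rfl⟩ := ρ.surjective z
      change ρ.symm (PhiP a ρ e γ (ρ z₁)) ∈ P ↔ ρ.symm (ρ z₁) ∈ P
      rw [PhiP_apply, ρ.symm_apply_apply, ρ.symm_apply_apply]
      exact hPD _ (inDecomp20 hγ) z₁
  · intro W hW hcW b P hb hbP γ hγ z
    have hPE : ∀ a : E, algebraMap E U' a ∈ P := fun a =>
      (hbP (algebraMap E _ a)).1 (b.algebraMap_mem a)
    have hPt : P ≠ ⊤ := by
      intro h1
      apply b.ne_top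
      rw [eq_top_iff]
      intro z _
      rw [hbP z, h1]
      trivial
    let Pc : ValuationSubring (PLf ℓ (LT.MM k K)) := P.comap (ρ : PLf ℓ (LT.MM k K) →+* U')
    have hPc : ∀ a : kbar k K, algebraMap (kbar k K) (PLf ℓ (LT.MM k K)) a ∈ Pc := by
      intro a
      change ρ (algebraMap (kbar k K) (PLf ℓ (LT.MM k K)) a) ∈ P
      rw [T.const]
      exact hPE _
    have hPc1 : Pc ≠ ⊤ := comap_ne_top20 ρ.surjective hPt
    have hval : Pc.valuation (toL ℓ (algebraMap K0 K h)) ≠ 1 := by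
      intro h1
      have h2 : toL ℓ (k := k) (algebraMap K0 K h) ≠ 0 := by
        intro h0
        have h3 := T.base h
        rw [h0, map_zero] at h3
        exact hS.g_ne ((map_eq_zero _).1 h3.symm)
      rw [← map_one Pc.valuation, comap_eq_iff20 _ _ h2 one_ne_zero] at h1
      have h3 : P.valuation (algebraMap K0 U' h) = 1 := by
        have h4 : (ρ : PLf ℓ (LT.MM k K) →+* U') (toL ℓ (algebraMap K0 K h)) =
            algebraMap K0 U' h := T.base h
        rw [h4, map_one, map_one] at h1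
        exact h1
      apply hb
      have h5 : (inL0 h : L0 E K0 (U := U')) ∈ b.ring := by
        rw [hbP]
        exact (P.valuation_le_one_iff _).1 h3.le
      have h6 : (inL0 h : L0 E K0 (U := U'))⁻¹ ∈ b.ring := by
        rw [hbP]
        refine (P.valuation_le_one_iff _).1 ?_
        change P.valuation (algebraMap K0 U' h)⁻¹ ≤ 1
        rw [map_inv₀, h3, inv_one]
      rw [TWU.mem_iff_ord hff b hh0] at h5
      rw [TWU.mem_iff_ord hff b (inv_ne_zero hh0), TWU.ord_inv' hff b hh0] at h6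
      have h7 : ord b.ring (inL0 h : L0 E K0 (U := U')) = 0 := by omega
      rw [h7]
      exact dvd_zero _
    have h1 := (hLP F k K0 K ℓ c h x z₀ f S y hℓ hS a ha hF t hfin
      (W.comap (e : kbar k K →+* E)) (comap_ne_top20 hsurj hW.ne) (hk₁ W hW) (hred W hW)
      (hSW W hW)).2 (hmem W c (H.reg W hW)) (fun h0 => hcW ((hnon W c).1 h0)) Pc hPc hPc1 hval
      _ (inInert20 hγ) (ρ.symm z)
    have h2 := PhiP_apply a ρ e γ (ρ.symm z)
    rw [ρ.apply_symm_apply] at h2
    have h3 : a ((e.trans γ).trans e.symm) (ρ.symm z) ∈ Pc ↔ PhiP a ρ e γ z ∈ P := by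
      rw [h2]
      exact Iff.rfl
    have h4 : ρ.symm z ∈ Pc ↔ z ∈ P := by
      change ρ (ρ.symm z) ∈ P ↔ _
      rw [ρ.apply_symm_apply]
    rw [← h3, ← h4]
    exact h1

/-- BLOCK LOCP. -/
theorem stmtLOCP (hLP : StmtLP) : StmtLOCP := by
  classical
  intro k₀ K₀ _ _ _ _ hK₀ ℓ hℓ h₀ hh₀
  obtain ⟨x, z₀, f, S, hx, hgen, hdeg, hsep, hgood⟩ := GC.exists_goodPoly hK₀ hh₀
  have hc₀ : Coord h₀ x z₀ f S := ⟨hh₀, hK₀, hx, hgen, hdeg, hsep, hgood⟩
  refine ⟨goodElts f 1 ∪ S, ?_⟩
  intro F k K0 _ _ _ _ _ _ _ _ _ _ hF hfin hgenK htr hg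
  have hk : CharZero k := charZero_of_injective_algebraMap (algebraMap k₀ k).injective
  have hF0 : CharZero F := (algebraMap F k).charZero
  have hco := TWU.coord_map (k := k) hc₀ hgenK (TWU.transc_map hK₀ hx htr)
  obtain ⟨t, hfin⟩ := hfin
  obtain ⟨E, U, _, _, _, _, _, _, _, _, r, hcl, G, hiso⟩ :=
    trI k K0 ℓ (algebraMap K₀ K0 h₀) hℓ.two_le hg
  let U' := PLf ℓ (L.MM E K0 r)
  have hK0U : ∀ x : K0, algebraMap K0 U x ∈ PLf ℓ (L.MM E K0 r) := fun x =>
    GCL.le_PLf ℓ (L.MM E K0 r) (IntermediateField.subset_adjoin _ _ (Or.inl ⟨x, rfl⟩))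
  let iK0 : Algebra K0 U' := ((algebraMap K0 U).codRestrict (PLf ℓ (L.MM E K0 r)).toSubring
    hK0U).toAlgebra
  have st1 : IsScalarTower k E U' := inferInstance
  have st2 : IsScalarTower k K0 U' := IsScalarTower.of_algebraMap_eq fun x => by
    apply Subtype.ext
    change algebraMap k U x = algebraMap K0 U (algebraMap k K0 x)
    rw [← IsScalarTower.algebraMap_apply]
  let r' : U' := ⟨r, GCL.le_PLf ℓ (L.MM E K0 r) (IntermediateField.subset_adjoin _ _ (Or.inr rfl))⟩
  have hr' : r' ^ ℓ = algebraMap K0 U' (algebraMap K₀ K0 h₀) := Subtype.ext G.rpow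
  have hP : IsProU (K0 := K0) (E := E) ℓ r (algebraMap U' U) r' :=
    ⟨fun _ => rfl, fun _ => rfl, rfl, fun z => ⟨fun hz => ⟨⟨z, hz⟩, rfl⟩, fun ⟨w, hw⟩ => hw ▸ w.2⟩⟩
  have halgE := G.algE
  have hff : IsFunctionField E (L0 E K0 (U := U')) := L.TR.ff_L0 hg.ff
  have halg : Algebra.IsAlgebraic (L0 E K0 (U := U')) U' := by
    have h0 := G.normal
    have h1 : Algebra.IsAlgebraic K0 U := inferInstance
    refine ⟨fun z => ?_⟩
    have h2 : IsAlgebraic K0 z := by
      obtain ⟨p, hp, hpz⟩ := h1.isAlgebraic (z : U)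
      refine ⟨p, hp, ?_⟩
      apply Subtype.ext
      have h3 := hom_eval₂ p (algebraMap K0 U') (algebraMap U' U) z
      rw [Polynomial.aeval_def]
      change algebraMap U' U _ = 0
      rw [h3]
      exact hpz
    exact isAlgebraic_of_range_le (A := K0)
      (fun a => ⟨⟨_, IntermediateField.subset_adjoin _ _ ⟨a, rfl⟩⟩, rfl⟩) h2
  refine ⟨E, U, U', inferInstance, inferInstance, inferInstance, inferInstance, inferInstance,
    inferInstance, inferInstance, inferInstance, inferInstance, inferInstance, iK0, inferInstance,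
    st1, st2, r, algebraMap U' U, r', hcl, G, hP, ?_⟩
  intro c W₀ S' B hS' H K _ _ _ _ y hy hyK s
  have hE0 : CharZero E := charZero_of_injective_algebraMap (algebraMap k E).injective
  have hy' : y ^ ℓ = algebraMap k K c⁻¹ * algebraMap K0 K (algebraMap K₀ K0 h₀) := by
    rw [← hy, ← mul_assoc, ← map_mul, inv_mul_cancel₀ H.c0, map_one, one_mul]
  obtain ⟨ρ₀, e, T₀⟩ := hiso c⁻¹ (inv_ne_zero H.c0) K y hy' hyK
  obtain ⟨ρ, T⟩ := exists_isoP T₀ hyK hP
  have hact := actK_aPro s
  refine ⟨PhiP (aPro s) ρ e, act_PhiP T hact, ?_, ?_⟩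
  · rintro ⟨b, hb, hbp⟩
    have hS : CycE ℓ c (algebraMap K₀ K0 h₀) (algebraMap K₀ K0 x) (algebraMap K₀ K0 z₀)
        (f.map (algebraMap k₀ k)) (S.image (algebraMap k₀ k)) y :=
      ⟨hℓ.pos, H.c0, hco.g_ne, hco.ff, hco.x_tr, hco.gen₀, hyK, hy, hco.deg, hco.sep, hco.good⟩
    have hbr : Br3 ℓ K0 k y := br3_20 hℓ.ne_zero hco.g_ne hff hr' T hb hbp
    refine locP20 hLP hact hF hfin hℓ T hS hff hr' halg hbr ?_ H
    intro a ha
    rcases Finset.mem_union.1 ha with ha | ha
    · obtain ⟨a₀, ha₀, rfl⟩ := Finset.mem_image.1 (TWU.goodElts_map hdeg ha)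
      exact hS' a₀ (Finset.mem_union_left _ ha₀)
    · obtain ⟨a₀, ha₀, rfl⟩ := Finset.mem_image.1 ha
      exact hS' a₀ (Finset.mem_union_right _ ha₀)
  · intro b P hbP hst P₀ hP₀
    exact agrP20 T s hbP hst hP₀

end

end Pool.Agent.FFP20
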