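import Pool.Agent.Helper20.FF.PR.Iso
import Pool.Agent.Helper20.FF.PR.KL
import Pool.Agent.Helper20.FF.LB

/-!
# Project FF, PRO, block LOCP: the transfer to `U'`
-/

set_option autoImplicit false
set_option linter.unusedSectionVars false

namespace Pool.Agent.FFP20

open VC IntermediateField Polynomial Pool.Agent.SC Pool.Agent.Helper91.Sect Pool.Agent
open Pool.Agent.L (L0)
open Pool.Agent.LN (Geo Act GoodCurve)
open Pool.Agent.LT (UU toU mem_UU)
open Pool.Agent.GC (LL)
open Pool.Agent.M (Moves OverPl inL0)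
open Pool.Agent.ML (BPl)
open Pool.Agent.FFS (OverU LocA HypC GoodW IsProU AgrP)
open Pool.Agent.FFL20
open Pool.Agent.GCL (KurL ProSection PLf ActK toL Br3)

noncomputable section

/-- `ρ` is an isomorphism of the maximal pro-`ℓ` extensions, over `e` and `K0`. -/
structure IsoP {k K0 K E U' : Type} [Field k] [Field K0] [Field K] [Algebra k K] [Algebra K0 K]
    [Field E] [Field U'] [Algebra k E] [Algebra E U'] [Algebra K0 U'] (ℓ : ℕ)
    (ρ : PLf ℓ (LT.MM k K) ≃+* U') (e : kbar k K ≃ₐ[k] E) (c : k) (y : K) (r' : U') : Prop where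
  const : ∀ z : kbar k K, ρ (algebraMap (kbar k K) (PLf ℓ (LT.MM k K)) z) = algebraMap E U' (e z)
  base : ∀ x : K0, ρ (toL ℓ (algebraMap K0 K x)) = algebraMap K0 U' x
  root : ∃ d : E, d ^ ℓ = algebraMap k E c ∧ d ≠ 0 ∧ algebraMap E U' d * r' = ρ (toL ℓ y)

section iso

variable {k K0 K E U U' : Type} [Field k] [CharZero k] [Field K0] [Algebra k K0] [Field K]
  [Algebra k K] [Algebra K0 K] [IsScalarTower k K0 K]
  [Field E] [Field U] [Algebra k E] [Algebra E U] [Algebra K0 U] [Field U'] [Algebra E U']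
  [Algebra K0 U']
  {ρ : UU k K ≃+* U} {e : kbar k K ≃ₐ[k] E} {y : K} {c : k} {r : U} {ℓ : ℕ} {i : U' →+* U} {r' : U'}

/-- `ρ` maps `MM` onto `MM` -/
theorem IsoT.mem_MM' (T : IsoT (K0 := K0) ρ e ℓ c y r) (hK : IntermediateField.adjoin K0 {y} = ⊤)
    {z : UU k K} (hz : z ∈ LT.MM k K) : ρ z ∈ L.MM E K0 r := by
  have h1 : ∀ x : K, ρ (toU (k := k) (K := K) x) ∈ L.MM E K0 r := by
    let S : IntermediateField K0 K :=
      { (L.MM E K0 r).toSubfield.comap ((ρ : UU k K →+* U).comp (toU (k := k) (K := K))) with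
        algebraMap_mem' := fun x => by
          change ρ (toU (k := k) (K := K) (algebraMap K0 K x)) ∈ L.MM E K0 r
          rw [T.base]
          exact IntermediateField.subset_adjoin _ _ (Or.inl ⟨x, rfl⟩) }
    have h1 : (⊤ : IntermediateField K0 K) ≤ S := by
      rw [← hK, IntermediateField.adjoin_simple_le_iff]
      obtain ⟨d, -, -, hd⟩ := T.root
      change ρ (toU (k := k) (K := K) y) ∈ L.MM E K0 r
      rw [← hd]
      exact mul_mem ((L.MM E K0 r).algebraMap_mem d)
        (IntermediateField.subset_adjoin _ _ (Or.inr rfl))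
    exact fun x => h1 (IntermediateField.mem_top (x := x))
  have h2 : KK k K ≤ (IntermediateField.map (UU k K).val
      ({ (L.MM E K0 r).toSubfield.comap (ρ : UU k K →+* U) with
        algebraMap_mem' := fun a => by
          change ρ (algebraMap (kbar k K) (UU k K) a) ∈ L.MM E K0 r
          rw [T.const]
          exact (L.MM E K0 r).algebraMap_mem _ } : IntermediateField (kbar k K) (UU k K))) := by
    refine IntermediateField.adjoin_le_iff.2 ?_
    rintro _ ⟨x, rfl⟩
    exact ⟨toU (k := k) (K := K) x, h1 x, rfl⟩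
  obtain ⟨w, hw, hwz⟩ := h2 ((IntermediateField.mem_restrict (LT.KK_le_UU k K) _).1 hz)
  have h3 : w = z := Subtype.ext hwz
  rw [← h3]
  exact hw

theorem IsoT.mem_MM (T : IsoT (K0 := K0) ρ e ℓ c y r) {z : U} (hz : z ∈ L.MM E K0 r) :
    ρ.symm z ∈ LT.MM k K := by
  have hc : ∀ a : E, ρ.symm (algebraMap E U a) = algebraMap (kbar k K) (UU k K) (e.symm a) := by
    intro a
    rw [RingEquiv.symm_apply_eq, T.const, AlgEquiv.apply_symm_apply]
  refine map_adjoin20 (fun z => e.symm z) (ρ.symm : U →+* UU k K) hc _ ?_ hz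
  rintro _ (⟨x, rfl⟩ | hx)
  · change ρ.symm (algebraMap K0 U x) ∈ LT.MM k K
    rw [← T.base, RingEquiv.symm_apply_apply]
    exact LT.toU_mem _
  · rw [Set.mem_singleton_iff.1 hx]
    obtain ⟨d, -, hd0, hd⟩ := T.root
    have h1 : r = algebraMap E U d⁻¹ * ρ (toU (k := k) (K := K) y) := by
      rw [← hd, ← mul_assoc, ← map_mul, inv_mul_cancel₀ hd0, map_one, one_mul]
    change ρ.symm r ∈ LT.MM k K
    rw [h1, map_mul, hc, RingEquiv.symm_apply_apply]
    exact mul_mem ((LT.MM k K).algebraMap_mem _) (LT.toU_mem y)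

/-- the isomorphism of the maximal pro-`ℓ` extensions -/
theorem exists_isoP (T : IsoT (K0 := K0) ρ e ℓ c y r) (hK : IntermediateField.adjoin K0 {y} = ⊤)
    (hP : IsProU (K0 := K0) (E := E) ℓ r i r') :
    ∃ ρ' : PLf ℓ (LT.MM k K) ≃+* U', IsoP (K0 := K0) ℓ ρ' e c y r' := by
  have h1 : ∀ z : PLf ℓ (LT.MM k K), ∃ w : U', i w = ρ (z : UU k K) := fun z =>
    (hP.range _).1 (PLf_iso ρ (fun m hm => T.mem_MM' hK hm) z.2)
  choose w hw using h1
  let f : PLf ℓ (LT.MM k K) →+* U' :=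
    { toFun := w
      map_one' := i.injective (by rw [hw, map_one]; exact map_one ρ)
      map_mul' := fun a b => i.injective (by rw [hw, map_mul, hw, hw]; exact map_mul ρ _ _)
      map_zero' := i.injective (by rw [hw, map_zero]; exact map_zero ρ)
      map_add' := fun a b => i.injective (by rw [hw, map_add, hw, hw]; exact map_add ρ _ _) }
  have hf : ∀ z, i (f z) = ρ (z : UU k K) := hw
  have hsurj : Function.Surjective f := by
    intro z
    have h2 : i z ∈ PLf ℓ (L.MM E K0 r) := (hP.range _).2 ⟨z, rfl⟩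
    have h3 : ρ.symm (i z) ∈ PLf ℓ (LT.MM k K) := PLf_iso ρ.symm (fun m hm => T.mem_MM hm) h2
    refine ⟨⟨_, h3⟩, i.injective ?_⟩
    rw [hf]
    exact ρ.apply_symm_apply _
  refine ⟨RingEquiv.ofBijective f ⟨f.injective, hsurj⟩, ?_, ?_, ?_⟩
  · intro z
    apply i.injective
    rw [hP.const, ← T.const]
    exact hf _
  · intro x
    apply i.injective
    rw [hP.base, ← T.base]
    exact hf _
  · obtain ⟨d, hd, hd0, h2⟩ := T.root
    refine ⟨d, hd, hd0, ?_⟩
    apply i.injective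
    rw [map_mul, hP.const, hP.root, h2]
    exact (hf (toL ℓ y)).symm

end iso

/-- transport of an action -/
def PhiP {k K E V U' : Type} [Field k] [Field K] [Algebra k K] [Field E] [Algebra k E] [Field V]
    [Field U'] (a : Gk k K →* (V ≃+* V)) (ρ : V ≃+* U') (e : kbar k K ≃ₐ[k] E) :
    (E ≃ₐ[k] E) →* (U' ≃+* U') where
  toFun g := (ρ.symm.trans (a ((e.trans g).trans e.symm))).trans ρ
  map_one' := by
    ext z : 1
    change ρ (a ((e.trans 1).trans e.symm) (ρ.symm z)) = z
    have h1 : (e.trans (1 : E ≃ₐ[k] E)).trans e.symm = 1 := by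
      apply AlgEquiv.ext
      intro z
      exact e.symm_apply_apply z
    rw [h1, map_one]
    exact ρ.apply_symm_apply z
  map_mul' g g' := by
    ext z : 1
    change ρ (a ((e.trans (g * g')).trans e.symm) (ρ.symm z)) =
      ρ (a ((e.trans g).trans e.symm) (ρ.symm (ρ (a ((e.trans g').trans e.symm) (ρ.symm z)))))
    have h1 : (e.trans (g * g')).trans e.symm =
        ((e.trans g).trans e.symm) * ((e.trans g').trans e.symm) := by
      apply AlgEquiv.ext
      intro z
      change e.symm (g (g' (e z))) = e.symm (g (e (e.symm (g' (e z)))))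
      rw [e.apply_symm_apply]
    rw [h1, map_mul, ρ.symm_apply_apply]
    rfl

theorem PhiP_apply {k K E V U' : Type} [Field k] [Field K] [Algebra k K] [Field E] [Algebra k E]
    [Field V] [Field U'] (a : Gk k K →* (V ≃+* V)) (ρ : V ≃+* U') (e : kbar k K ≃ₐ[k] E)
    (g : E ≃ₐ[k] E) (z : V) : PhiP a ρ e g (ρ z) = ρ (a ((e.trans g).trans e.symm) z) := by
  change ρ (a ((e.trans g).trans e.symm) (ρ.symm (ρ z))) = _
  rw [ρ.symm_apply_apply]

section act

variable {k K0 K E U' : Type} [Field k] [CharZero k] [Field K0] [Algebra k K0] [Field K]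
  [Algebra k K] [Algebra K0 K] [IsScalarTower k K0 K] [Field E] [Algebra k E] [Field U']
  [Algebra E U'] [Algebra K0 U'] {e : kbar k K ≃ₐ[k] E} {y : K} {c : k} {ℓ : ℕ}
  {ρ : PLf ℓ (LT.MM k K) ≃+* U'} {r' : U'} {a : Gk k K →* (PLf ℓ (LT.MM k K) ≃+* PLf ℓ (LT.MM k K))}

theorem act_PhiP (T : IsoP (K0 := K0) ℓ ρ e c y r') (ha : ActK ℓ a) :
    Act (K0 := K0) ℓ r' c (PhiP a ρ e) := by
  have hc : ∀ (g : E ≃ₐ[k] E) (b : E), PhiP a ρ e g (algebraMap E U' b) = algebraMap E U' (g b) := by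
    intro g b
    obtain ⟨b', rfl⟩ := e.surjective b
    rw [← T.const, PhiP_apply, ha.const, T.const]
    congr 1
    change e (e.symm (g (e b'))) = _
    rw [e.apply_symm_apply]
  refine ⟨hc, ?_, ?_, ?_⟩
  · intro g x
    rw [← T.base, PhiP_apply, ha.base]
  · obtain ⟨d, hd, hd0, h1⟩ := T.root
    refine ⟨d, hd, fun g => ?_⟩
    have h3 : PhiP a ρ e g (algebraMap E U' d * r') = algebraMap E U' d * r' := by
      rw [h1, PhiP_apply, ha.base]
    rw [map_mul, hc] at h3
    rw [mul_comm, h3]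
  · intro z
    obtain ⟨w, rfl⟩ := ρ.surjective z
    obtain ⟨L, hL, hLs⟩ := ha.fin w
    refine ⟨L.map (e : kbar k K →ₐ[k] E), ?_, fun g hg => ?_⟩
    · exact Module.Finite.equiv (L.intermediateFieldMap e).toLinearEquiv
    · have h3 : (e.trans g).trans e.symm ∈ L.fixingSubgroup := by
        rw [IntermediateField.mem_fixingSubgroup_iff]
        intro x hx
        change e.symm (g (e x)) = x
        rw [hg (e x) ⟨x, hx, rfl⟩, e.symm_apply_apply]
      rw [PhiP_apply, hLs _ h3]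

/-- **Agreement.** -/
theorem agrP20 (T : IsoP (K0 := K0) ℓ ρ e c y r') (s : ProSection ℓ k K)
    {b : Place E (L0 E K0 (U := U'))} {P : ValuationSubring U'} (hbP : OverU b P)
    (hst : ∀ (z : U') (g : E ≃ₐ[k] E), PhiP (aPro s) ρ e g z ∈ P ↔ z ∈ P)
    {P₀ : ValuationSubring K0} (hP₀ : ∀ x : K0, x ∈ P₀ ↔ inL0 x ∈ b.ring) : AgrP s P₀ := by
  have hPE : ∀ a : E, algebraMap E U' a ∈ P := fun a => (hbP (algebraMap E _ a)).1 (b.algebraMap_mem a)
  refine ⟨P.comap ((ρ : PLf ℓ (LT.MM k K) →+* U').comp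
    (eL k K ℓ : KurL ℓ k K →+* PLf ℓ (LT.MM k K))), ?_, ?_, ?_⟩
  · intro z hz
    change ρ (eL k K ℓ z) ∈ P
    have h1 : eL k K ℓ z = algebraMap (kbar k K) (PLf ℓ (LT.MM k K))
        ⟨(z : AlgebraicClosure K), mem_algebraicClosure_iff.2 hz⟩ := rfl
    rw [h1, T.const]
    exact hPE _
  · intro x
    rw [hP₀ x]
    change _ ↔ ρ (toL ℓ (algebraMap K0 K x)) ∈ P
    rw [T.base]
    exact hbP (inL0 x)
  · intro g z
    change ρ (eL k K ℓ (s.toHom g z)) ∈ P ↔ ρ (eL k K ℓ z) ∈ P
    have h1 := hst (ρ (eL k K ℓ z)) ((e.symm.trans g).trans e)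
    rw [PhiP_apply] at h1
    have h2 : (e.trans ((e.symm.trans g).trans e)).trans e.symm = g := by
      apply AlgEquiv.ext
      intro z
      change e.symm (e (g (e.symm (e z)))) = g z
      rw [e.symm_apply_apply, e.symm_apply_apply]
    rw [h2, aPro_apply] at h1
    exact h1

end act

end

end Pool.Agent.FFP20
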