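import Pool.Agent.Helper20.FF.PR.LP
import Pool.Agent.Helper37.TWU.K

/-!
# Project FF, PRO, block LOCP: the local properties
-/

set_option autoImplicit false
set_option linter.unusedSectionVars false

namespace Pool.Agent.FFP20

open VC IntermediateField Polynomial Pool.Agent.SC Pool.Agent.Helper91.Sect Pool.Agent
open Pool.Agent.L (L0)
open Pool.Agent.LN (Geo Act GoodCurve)
open Pool.Agent.LT (UU toU mem_UU GoodRed goodElts goodRed_of_goodElts)
open Pool.Agent.GC (LL CycE)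
open Pool.Agent.M (Moves OverPl inL0)
open Pool.Agent.ML (BPl)
open Pool.Agent.FFS (OverU LocA HypC GoodW IsProU AgrP StmtLP)
open Pool.Agent.FFL20
open Pool.Agent.GCL (KurL ProSection PLf ActK toL Br3)

noncomputable section

section basic

variable {k K0 K E U' : Type} [Field k] [CharZero k] [Field K0] [Algebra k K0] [Field K]
  [Algebra k K] [Algebra K0 K] [IsScalarTower k K0 K] [Field E] [Algebra k E] [Field U']
  [Algebra E U'] [Algebra K0 U'] {e : kbar k K ≃ₐ[k] E} {y : K} {c : k} {ℓ : ℕ}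
  {ρ : PLf ℓ (LT.MM k K) ≃+* U'} {r' : U'}

theorem IsoP.const' (T : IsoP (K0 := K0) ℓ ρ e c y r') (z : E) :
    ρ.symm (algebraMap E U' z) = algebraMap (kbar k K) (PLf ℓ (LT.MM k K)) (e.symm z) := by
  rw [RingEquiv.symm_apply_eq, T.const, AlgEquiv.apply_symm_apply]

theorem IsoP.base' (T : IsoP (K0 := K0) ℓ ρ e c y r') (x : K0) :
    ρ.symm (algebraMap K0 U' x) = toL ℓ (algebraMap K0 K x) := by
  rw [RingEquiv.symm_apply_eq, T.base]

theorem IsoP.root' (T : IsoP (K0 := K0) ℓ ρ e c y r') :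
    ∃ d : kbar k K, d ≠ 0 ∧
      ρ.symm r' = algebraMap (kbar k K) (PLf ℓ (LT.MM k K)) d * toL ℓ y := by
  obtain ⟨d, -, hd, h1⟩ := T.root
  refine ⟨e.symm d⁻¹, ?_, ?_⟩
  · rw [Ne, EmbeddingLike.map_eq_zero_iff]
    exact inv_ne_zero hd
  · rw [RingEquiv.symm_apply_eq, map_mul, ← h1, T.const, AlgEquiv.apply_symm_apply, ← mul_assoc,
      ← map_mul, inv_mul_cancel₀ hd, map_one, one_mul]

theorem IsoP.mem_LL (T : IsoP (K0 := K0) ℓ ρ e c y r') {z : U'} (hz : z ∈ L0 E K0 (U := U')) :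
    ((ρ.symm z : PLf ℓ (LT.MM k K)) : UU k K) ∈ LL k K0 K := by
  refine map_adjoin20 (fun z => e.symm z)
    ((algebraMap (PLf ℓ (LT.MM k K)) (UU k K)).comp (ρ.symm : U' →+* PLf ℓ (LT.MM k K)))
    (fun a => ?_) _ ?_ hz
  · change ((ρ.symm (algebraMap E U' a) : PLf ℓ (LT.MM k K)) : UU k K) = _
    rw [T.const']
    rfl
  · rintro _ ⟨x, rfl⟩
    change ((ρ.symm (algebraMap K0 U' x) : PLf ℓ (LT.MM k K)) : UU k K) ∈ LL k K0 K
    rw [T.base']
    exact GC.toU_mem_LL x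

theorem IsoP.mem_L0 (T : IsoP (K0 := K0) ℓ ρ e c y r') {u : PLf ℓ (LT.MM k K)}
    (hu : (u : UU k K) ∈ LL k K0 K) : ρ u ∈ L0 E K0 (U := U') := by
  let S : IntermediateField (kbar k K) (PLf ℓ (LT.MM k K)) :=
    { (L0 E K0 (U := U')).toSubfield.comap (ρ : PLf ℓ (LT.MM k K) →+* U') with
      algebraMap_mem' := fun a => by
        change ρ (algebraMap (kbar k K) (PLf ℓ (LT.MM k K)) a) ∈ L0 E K0 (U := U')
        rw [T.const]
        exact (L0 E K0 (U := U')).algebraMap_mem _ }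
  have h1 : LL k K0 K ≤ S.map (PLf ℓ (LT.MM k K)).val := by
    unfold GC.LL
    refine IntermediateField.adjoin_le_iff.2 ?_
    rintro _ ⟨x, rfl⟩
    refine ⟨toL ℓ (algebraMap K0 K x), ?_, rfl⟩
    change ρ (toL ℓ (algebraMap K0 K x)) ∈ L0 E K0 (U := U')
    rw [T.base]
    exact IntermediateField.subset_adjoin _ _ ⟨x, rfl⟩
  obtain ⟨w, hw, hwu⟩ := h1 hu
  have h3 : w = u := Subtype.ext hwu
  rw [← h3]
  exact hw

/-- If the value of `r` is not the value of an element of `L0` then the place is a branch place. -/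
theorem bplP20 (hℓ : ℓ ≠ 0) {h : K0} (hh : h ≠ 0) [CharZero E]
    (hff : IsFunctionField E (L0 E K0 (U := U'))) (hr : r' ^ ℓ = algebraMap K0 U' h)
    {b : Place E (L0 E K0 (U := U'))} {P : ValuationSubring U'} (hbP : OverU b P)
    (hne : ∀ u ∈ L0 E K0 (U := U'), P.valuation r' ≠ P.valuation u) : BPl ℓ h b := by
  rintro ⟨q, hq⟩
  have hh0 : (inL0 h : L0 E K0 (U := U')) ≠ 0 := by
    intro h0
    have h1 : algebraMap K0 U' h = 0 := congrArg Subtype.val h0
    exact hh ((map_eq_zero _).1 h1)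
  obtain ⟨π, hπ0, hπ⟩ := TWU.exists_unif hff b
  have hu0 : π ^ q ≠ 0 := zpow_ne_zero _ hπ0
  have h1 : ord b.ring ((π ^ q) ^ ℓ) = ord b.ring (inL0 h) := by
    rw [TWU.ord_pow' hff b hu0, TWU.ord_zpow' hff b hπ0, hπ, hq, mul_one]
  refine hne (π ^ q : L0 E K0 (U := U')) (π ^ q).2 ?_
  have key : ∀ a a' : L0 E K0 (U := U'), a ≠ 0 → a' ≠ 0 → ord b.ring a = ord b.ring a' →
      P.valuation (a : U') ≤ P.valuation (a' : U') := by
    intro a a' ha ha' haa
    have h2 : a / a' ∈ b.ring := by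
      rw [TWU.mem_iff_ord hff b (div_ne_zero ha ha'), div_eq_mul_inv,
        TWU.ord_mul' hff b ha (inv_ne_zero ha'), TWU.ord_inv' hff b ha', haa]
      omega
    have h3 := (hbP _).1 h2
    have h4 : ((a / a' : L0 E K0 (U := U')) : U') = a / a' := rfl
    rw [h4, ← ValuationSubring.valuation_le_one_iff, map_div₀, div_le_one₀] at h3
    · exact h3
    · refine zero_lt_iff.2 ((Valuation.ne_zero_iff _).2 ?_)
      intro h0
      exact ha' (Subtype.ext h0)
  have h2 : P.valuation (r' ^ ℓ) = P.valuation (((π ^ q : L0 E K0 (U := U')) : U') ^ ℓ) := by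
    have h3 : (r' ^ ℓ : U') = ((inL0 h : L0 E K0 (U := U')) : U') := hr
    rw [h3]
    exact le_antisymm (key _ ((π ^ q) ^ ℓ) hh0 (pow_ne_zero _ hu0) h1.symm)
      (key ((π ^ q) ^ ℓ) _ (pow_ne_zero _ hu0) hh0 h1)
  rw [map_pow, map_pow] at h2
  exact (pow_left_inj₀ zero_le zero_le hℓ).1 h2

/-- At a branch place the value of `r` is not the value of an element of `L0`. -/
theorem val_ne_of_bpl20 (hℓ : ℓ ≠ 0) {h : K0} (hh : h ≠ 0) [CharZero E]
    (hff : IsFunctionField E (L0 E K0 (U := U'))) (hr : r' ^ ℓ = algebraMap K0 U' h)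
    {b : Place E (L0 E K0 (U := U'))} {P : ValuationSubring U'} (hbP : OverU b P) (hb : BPl ℓ h b)
    {u : U'} (hu : u ∈ L0 E K0 (U := U')) : P.valuation r' ≠ P.valuation u := by
  intro heq
  apply hb
  have hh0 : (inL0 h : L0 E K0 (U := U')) ≠ 0 := by
    intro h0
    have h1 : algebraMap K0 U' h = 0 := congrArg Subtype.val h0
    exact hh ((map_eq_zero _).1 h1)
  have hr0 : r' ≠ 0 := by
    rintro rfl
    rw [zero_pow hℓ] at hr
    exact hh ((map_eq_zero _).1 hr.symm)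
  have hu0 : u ≠ 0 := by
    rintro rfl
    rw [map_zero, Valuation.zero_iff] at heq
    exact hr0 heq
  have hu0' : (⟨u, hu⟩ : L0 E K0 (U := U')) ≠ 0 := fun h0 => hu0 (congrArg Subtype.val h0)
  have h1 : P.valuation (algebraMap K0 U' h / u ^ ℓ) = 1 := by
    rw [← hr, map_div₀, map_pow, map_pow, heq]
    exact div_self (pow_ne_zero _ ((Valuation.ne_zero_iff _).2 hu0))
  set w : L0 E K0 (U := U') := inL0 h / ⟨u, hu⟩ ^ ℓ with hw
  have hw0 : w ≠ 0 := div_ne_zero hh0 (pow_ne_zero _ hu0')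
  have hwv : P.valuation (w : U') = 1 := h1
  have h2 : w ∈ b.ring := by
    rw [hbP]
    exact (P.valuation_le_one_iff _).1 hwv.le
  have h3 : w⁻¹ ∈ b.ring := by
    rw [hbP]
    refine (P.valuation_le_one_iff _).1 ?_
    change P.valuation (w : U')⁻¹ ≤ 1
    rw [map_inv₀, hwv, inv_one]
  rw [TWU.mem_iff_ord hff b hw0] at h2
  rw [TWU.mem_iff_ord hff b (inv_ne_zero hw0), TWU.ord_inv' hff b hw0] at h3
  have h4 : ord b.ring w = 0 := by omega
  have h5 : (inL0 h : L0 E K0 (U := U')) = w * ⟨u, hu⟩ ^ ℓ := by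
    rw [hw, div_mul_cancel₀ _ (pow_ne_zero _ hu0')]
  rw [h5, TWU.ord_mul' hff b hw0 (pow_ne_zero _ hu0'), h4, zero_add, TWU.ord_pow' hff b hu0']
  exact dvd_mul_right _ _

/-- three branch places give `Br3` -/
theorem br3_20 (hℓ : ℓ ≠ 0) {h : K0} (hh : h ≠ 0) [CharZero E]
    (hff : IsFunctionField E (L0 E K0 (U := U'))) (hr : r' ^ ℓ = algebraMap K0 U' h)
    (T : IsoP (K0 := K0) ℓ ρ e c y r') {b : Fin 3 → Place E (L0 E K0 (U := U'))}
    (hb : Function.Injective b) (hbp : ∀ j, BPl ℓ h (b j)) : Br3 ℓ K0 k y := by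
  choose P' hP' using fun i => SC.exists_comap_eq (algebraMap (L0 E K0 (U := U')) U') (b i).ring
  have hov : ∀ i, OverU (b i) (P' i) := fun i z => (hP' i z).symm
  refine ⟨fun i => (P' i).comap (ρ : PLf ℓ (LT.MM k K) →+* U'), ?_, ?_, ?_⟩
  · intro i a
    change ρ (algebraMap (kbar k K) (PLf ℓ (LT.MM k K)) a) ∈ P' i
    rw [T.const]
    exact (hov i (algebraMap E _ (e a))).1 ((b i).algebraMap_mem (e a))
  · intro i u hu heq
    have hy0 : toL ℓ (k := k) y ≠ 0 := by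
      obtain ⟨d, -, hd0, hd⟩ := T.root
      intro h0
      rw [h0, map_zero] at hd
      rcases mul_eq_zero.1 hd with h1 | h1
      · exact hd0 ((map_eq_zero _).1 h1)
      · rw [h1, zero_pow hℓ] at hr
        exact hh ((map_eq_zero _).1 hr.symm)
    have hu0 : u ≠ 0 := by
      rintro rfl
      rw [map_zero, Valuation.zero_iff] at heq
      exact hy0 heq
    rw [comap_eq_iff20 _ _ hy0 hu0] at heq
    obtain ⟨d, -, hd0, hd⟩ := T.root
    have h1 : (P' i).valuation (algebraMap E U' d) = 1 :=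
      val_one_of_mem ((hov i (algebraMap E _ d)).1 ((b i).algebraMap_mem d))
        (by rw [← map_inv₀]; exact (hov i (algebraMap E _ d⁻¹)).1 ((b i).algebraMap_mem d⁻¹))
        ((_root_.map_ne_zero _).2 hd0)
    have h2 : (P' i).valuation (ρ (toL ℓ y)) = (P' i).valuation (ρ u) := heq
    rw [← hd, map_mul, h1, one_mul] at h2
    exact val_ne_of_bpl20 hℓ hh hff hr (hov i) (hbp i) (T.mem_L0 hu) h2
  · intro i j hij
    have h1 : (b i).ring ≠ (b j).ring := fun h0 => hij (hb (Place.ext h0))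
    obtain ⟨z, hz⟩ : ∃ z, ¬ (z ∈ (b i).ring ↔ z ∈ (b j).ring) := by
      by_contra hcon
      push Not at hcon
      exact h1 (SetLike.ext fun z => by
        have := hcon z
        tauto)
    refine ⟨ρ.symm z, T.mem_LL z.2, ?_⟩
    change ¬ (ρ (ρ.symm (z : U')) ∈ P' i ↔ ρ (ρ.symm (z : U')) ∈ P' j)
    rw [ρ.apply_symm_apply, ← hov i, ← hov j]
    exact hz

end basic

end

end Pool.Agent.FFP20
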